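import Mathlib
import Pool.Agent.KS7_39.A66.DJ2
import Pool.Agent.KS7_39.A66.Conv

set_option autoImplicit false
set_option maxSynthPendingDepth 3
open Set Topology Filter

namespace Pool.Agent.Results.MP_a66ead_an.BidualComplementation

open Pool.Agent.KS7_39.A66

universe u v w

/-- The bidual of `Y`. -/
abbrev Bidual (Y : Type*) [NormedAddCommGroup Y] [NormedSpace ℝ Y] : Type _ :=
  (Y →L[ℝ] ℝ) →L[ℝ] ℝ

/-- The quotient `Y** / Y`. -/
abbrev BidualQuot (Y : Type*) [NormedAddCommGroup Y] [NormedSpace ℝ Y] : Type _ :=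
  Bidual Y ⧸ LinearMap.range (NormedSpace.inclusionInDoubleDual ℝ Y : Y →ₗ[ℝ] Bidual Y)

/-- `P` is a projection of the bidual of `Y` onto (the canonical image of) `Y`. -/
def IsBidualProj {Y : Type*} [NormedAddCommGroup Y] [NormedSpace ℝ Y] (P : Bidual Y →L[ℝ] Y) :
    Prop :=
  ∀ y : Y, P (NormedSpace.inclusionInDoubleDual ℝ Y y) = y

/-- The norm-one projection of the bidual of a dual space: the adjoint of the canonical
embedding. -/
noncomputable def dualProj (Z : Type w) [NormedAddCommGroup Z] [NormedSpace ℝ Z] :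
    Bidual (Z →L[ℝ] ℝ) →L[ℝ] (Z →L[ℝ] ℝ) :=
  (ContinuousLinearMap.compL ℝ Z (Bidual Z) ℝ).flip (NormedSpace.inclusionInDoubleDual ℝ Z)

lemma dualProj_proj (Z : Type w) [NormedAddCommGroup Z] [NormedSpace ℝ Z] :
    IsBidualProj (dualProj Z) := fun f => by
  ext z
  simp [dualProj]

lemma dualProj_norm (Z : Type w) [NormedAddCommGroup Z] [NormedSpace ℝ Z] :
    ‖dualProj Z‖ ≤ 1 := by
  refine ContinuousLinearMap.opNorm_le_bound _ zero_le_one fun Φ => ?_
  refine ContinuousLinearMap.opNorm_le_bound _ (by positivity) fun z => ?_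
  change ‖Φ (NormedSpace.inclusionInDoubleDual ℝ Z z)‖ ≤ _
  refine (Φ.le_opNorm _).trans ?_
  rw [one_mul]
  exact mul_le_mul_of_nonneg_left (NormedSpace.double_dual_bound ℝ Z z) (norm_nonneg _)

theorem aux (X : Type u) [NormedAddCommGroup X] [NormedSpace ℝ X] [CompleteSpace X] :
    (¬ FiniteDimensional ℝ (BidualQuot X) → ∀ l : ℝ, ∃ N : Seminorm ℝ X,
      (∃ a b : ℝ, 0 < a ∧ 0 < b ∧ ∀ x : X, a * ‖x‖ ≤ N x ∧ N x ≤ b * ‖x‖) ∧
        (∀ (Y : Type v) [NormedAddCommGroup Y] [NormedSpace ℝ Y] (T : X ≃ₗ[ℝ] Y) (a b : ℝ),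
          (∀ x : X, ‖T x‖ ≤ a * N x) ∧ (∀ x : X, N x ≤ b * ‖T x‖) →
          ∀ P : Bidual Y →L[ℝ] Y, IsBidualProj P → 0 ≤ a * b ∧ l ≤ a * b * ‖P‖) ∧
        (∀ (Z : Type v) [NormedAddCommGroup Z] [NormedSpace ℝ Z] (T : X ≃ₗ[ℝ] (Z →L[ℝ] ℝ))
          (a b : ℝ), (∀ x : X, ‖T x‖ ≤ a * N x) ∧ (∀ x : X, N x ≤ b * ‖T x‖) → l ≤ a * b)) ∧
    (FiniteDimensional ℝ (BidualQuot X) →
      ∀ (Y : Type v) [NormedAddCommGroup Y] [NormedSpace ℝ Y], (X ≃L[ℝ] Y) →
        ∃ P : Bidual Y →L[ℝ] Y, IsBidualProj P ∧ ‖P‖ ≤ 3 ^ Module.finrank ℝ (BidualQuot X)) := by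
  constructor
  · intro hX l
    have hX' : ∀ n : ℕ, ∃ φ : Fin n → ((X →L[ℝ] ℝ) →L[ℝ] ℝ),
        ∀ (c : Fin n → ℝ) (x : X), (∀ f : X →L[ℝ] ℝ, ∑ i, c i * φ i f = f x) → c = 0 := by
      intro n
      have hr : (n : Cardinal) ≤ Module.rank ℝ (BidualQuot X) := by
        refine (Cardinal.natCast_lt_aleph0 (n := n)).le.trans ?_
        by_contra h
        exact hX (Module.rank_lt_aleph0_iff.1 (not_le.1 h))
      obtain ⟨s, hs, hli⟩ := (le_rank_iff_exists_linearIndependent).1 hr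
      obtain ⟨e'⟩ := Cardinal.mk_eq_nat_iff.1 hs
      let e := e'.symm
      choose φ hφ using fun q : BidualQuot X => Submodule.mkQ_surjective _ q
      refine ⟨fun i => φ (e i), fun c x hc => ?_⟩
      have h1 : ∑ i, c i • φ (e i) = NormedSpace.inclusionInDoubleDual ℝ X x := by
        ext f
        simpa using hc f
      have h2 : ∑ i, c i • ((e i : BidualQuot X)) = 0 := by
        have := congrArg (Submodule.mkQ (LinearMap.range
          (NormedSpace.inclusionInDoubleDual ℝ X : X →ₗ[ℝ] Bidual X))) h1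
        simp only [map_sum, map_smul, hφ] at this
        rw [this]
        exact (Submodule.Quotient.mk_eq_zero _).2 ⟨x, rfl⟩
      have h3 := (Fintype.linearIndependent_iff.1 (hli.comp e e.injective)) c h2
      exact funext h3
    obtain ⟨N, h1, h2⟩ := main.{u, v} hX' l
    refine ⟨N, h1, fun Y _ _ T a b hab P hP => h2 Y T a b hab.1 hab.2 P hP,
      fun Z _ _ T a b hab => ?_⟩
    obtain ⟨h3, h4⟩ := h2 (Z →L[ℝ] ℝ) T a b hab.1 hab.2 (dualProj Z) (dualProj_proj Z)
    exact h4.trans (mul_le_of_le_one_right h3 (dualProj_norm Z))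
  · intro hX Y _ _ e
    have : CompleteSpace Y := (completeSpace_congr (e := e.toEquiv) e.isUniformEmbedding).1 inferInstance
    obtain ⟨q⟩ := quot_equiv X Y e
    have : FiniteDimensional ℝ (BidualQuot Y) := Module.Finite.equiv q
    obtain ⟨P, h1, h2⟩ := exists_proj Y
    refine ⟨P, h1, h2.trans_eq ?_⟩
    rw [show Module.finrank ℝ (BidualQuot X) = Module.finrank ℝ (BidualQuot Y) from q.finrank_eq]


section
variable (X : Type u) [NormedAddCommGroup X] [NormedSpace ℝ X]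

/-- `dim X**/X ≤ n`: the bidual is spanned by `X` and `n` further elements. -/
def CodimLE (n : ℕ) : Prop :=
  ∃ Φ : Fin n → (X →L[ℝ] ℝ) →L[ℝ] ℝ, ∀ Ψ : (X →L[ℝ] ℝ) →L[ℝ] ℝ,
    ∃ (x : X) (c : Fin n → ℝ), ∀ f : X →L[ℝ] ℝ, Ψ f = f x + ∑ i, c i * Φ i f

/-- There is a linear projection of norm at most `c` of the bidual of `X` onto (the canonical
image of) `X`: a linear map `P : X** → X` with `‖P Φ‖ ≤ c ‖Φ‖` and `P Φ = x` whenever `Φ` is the
evaluation at `x`. -/
def BidualComplemented (c : ℝ) : Prop :=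
  ∃ P : ((X →L[ℝ] ℝ) →L[ℝ] ℝ) →ₗ[ℝ] X, (∀ Φ, ‖P Φ‖ ≤ c * ‖Φ‖) ∧
    ∀ (Φ : (X →L[ℝ] ℝ) →L[ℝ] ℝ) (x : X), (∀ f, Φ f = f x) → P Φ = x

variable {X}

/-- `N` is a norm equivalent to the norm of `X`. -/
def IsEquivalentNorm (N : Seminorm ℝ X) : Prop :=
  ∃ a b : ℝ, 0 < a ∧ 0 < b ∧ ∀ x : X, a * ‖x‖ ≤ N x ∧ N x ≤ b * ‖x‖

/-- The isomorphism `T` has norm at most `a` and its inverse norm at most `b`, when `X` carries the
norm `N`. -/
def Bounds (N : Seminorm ℝ X) {Y : Type v} [NormedAddCommGroup Y] [NormedSpace ℝ Y]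
    (T : X ≃ₗ[ℝ] Y) (a b : ℝ) : Prop :=
  (∀ x : X, ‖T x‖ ≤ a * N x) ∧ ∀ x : X, N x ≤ b * ‖T x‖

/-- `(X, N)` has Banach-Mazur distance at least `l / c` to every normed space `Y` which is
`c`-complemented in its bidual. -/
def FarFromComplemented (N : Seminorm ℝ X) (l : ℝ) : Prop :=
  ∀ (Y : Type v) [NormedAddCommGroup Y] [NormedSpace ℝ Y] (T : X ≃ₗ[ℝ] Y) (a b : ℝ),
    Bounds N T a b → ∀ c : ℝ, BidualComplemented Y c → l ≤ a * b * c

/-- `(X, N)` has Banach-Mazur distance at least `l` to every dual space. -/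
def FarFromDuals (N : Seminorm ℝ X) (l : ℝ) : Prop :=
  ∀ (Z : Type v) [NormedAddCommGroup Z] [NormedSpace ℝ Z] (T : X ≃ₗ[ℝ] (Z →L[ℝ] ℝ)) (a b : ℝ),
    Bounds N T a b → l ≤ a * b

lemma codimLE_of_fd [FiniteDimensional ℝ (BidualQuot X)] :
    CodimLE X (Module.finrank ℝ (BidualQuot X)) := by
  let b := Module.finBasis ℝ (BidualQuot X)
  choose φ hφ using fun q : BidualQuot X => Submodule.mkQ_surjective _ q
  refine ⟨fun i => φ (b i), fun Ψ => ?_⟩
  have h : Submodule.Quotient.mk (Ψ - ∑ i, b.repr (Submodule.mkQ _ Ψ) i • φ (b i)) =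
      (0 : BidualQuot X) := by
    have := b.sum_repr (Submodule.mkQ _ Ψ)
    have h2 : Submodule.mkQ (LinearMap.range
        (NormedSpace.inclusionInDoubleDual ℝ X : X →ₗ[ℝ] Bidual X))
        (Ψ - ∑ i, b.repr (Submodule.mkQ _ Ψ) i • φ (b i)) = 0 := by
      rw [map_sub, map_sum]
      simp only [map_smul, hφ]
      rw [this, sub_self]
    exact h2
  obtain ⟨x, hx⟩ := (Submodule.Quotient.mk_eq_zero _).1 h
  refine ⟨x, fun i => b.repr (Submodule.mkQ _ Ψ) i, fun f => ?_⟩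
  have := congrArg (fun g : Bidual X => g f) hx
  simp at this
  rw [this]
  exact (sub_add_cancel _ _).symm

lemma fd_of_codimLE {n : ℕ} (h : CodimLE X n) :
    FiniteDimensional ℝ (BidualQuot X) ∧ Module.finrank ℝ (BidualQuot X) ≤ n := by
  obtain ⟨Φ, hΦ⟩ := h
  let L : (Fin n → ℝ) →ₗ[ℝ] BidualQuot X :=
    { toFun := fun c => ∑ i, c i • Submodule.mkQ _ (Φ i)
      map_add' := fun c d => by simp [add_smul, Finset.sum_add_distrib]
      map_smul' := fun t c => by simp [Finset.smul_sum, mul_smul] }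
  have hL : Function.Surjective L := by
    intro q
    obtain ⟨Ψ, rfl⟩ := Submodule.mkQ_surjective _ q
    obtain ⟨x, c, hc⟩ := hΦ Ψ
    refine ⟨c, ?_⟩
    have e : Ψ = NormedSpace.inclusionInDoubleDual ℝ X x + ∑ i, c i • Φ i := by
      ext f
      simpa using hc f
    change ∑ i, c i • Submodule.mkQ _ (Φ i) = Submodule.mkQ _ Ψ
    rw [e, map_add, map_sum]
    simp only [map_smul]
    rw [show Submodule.mkQ (LinearMap.range
        (NormedSpace.inclusionInDoubleDual ℝ X : X →ₗ[ℝ] Bidual X))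
        (NormedSpace.inclusionInDoubleDual ℝ X x) = 0 from
        (Submodule.Quotient.mk_eq_zero _).2 ⟨x, rfl⟩, zero_add]
  have hf : FiniteDimensional ℝ (BidualQuot X) := Module.Finite.of_surjective L hL
  exact ⟨hf, by simpa using LinearMap.finrank_le_finrank_of_surjective hL⟩

end

/-- **Renormings far from everything complemented in its bidual.**

(1) Let `X` be a real Banach space with `X**/X` infinite dimensional and `l` a real number. Then
`X` has an equivalent norm `N` such that for every normed space `Y` (of any universe), every linear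
isomorphism `T : X → Y` with `‖T x‖ ≤ a N(x)` and `N(x) ≤ b ‖T x‖`, and every projection of norm
at most `c` of `Y**` onto `Y`, we have `l ≤ a b c`. In particular (`Y` isometric to `(X, N)`,
`a = b = 1`) every projection of `(X, N)**` onto `(X, N)` has norm at least `l`; and if `Y = Z*` is
a dual space then `l ≤ a b`.

(2) Conversely, if `X**/X` has dimension at most `n`, then for every normed space `Y` isomorphic to
`X` there is a projection of `Y**` onto `Y` of norm at most `3 ^ n`. -/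
theorem result (X : Type u) [NormedAddCommGroup X] [NormedSpace ℝ X] [CompleteSpace X] :
    ((∀ n, ¬ CodimLE X n) → ∀ l : ℝ, ∃ N : Seminorm ℝ X,
      IsEquivalentNorm N ∧ FarFromComplemented.{u, v} N l ∧ FarFromDuals.{u, v} N l) ∧
    (∀ n, CodimLE X n → ∀ (Y : Type v) [NormedAddCommGroup Y] [NormedSpace ℝ Y], (X ≃L[ℝ] Y) →
      BidualComplemented Y (3 ^ n)) := by
  obtain ⟨h1, h2⟩ := aux.{u, v} X
  constructor
  · intro hX l
    have hX' : ¬ FiniteDimensional ℝ (BidualQuot X) := fun h => hX _ codimLE_of_fd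
    obtain ⟨N, k1, k2, k3⟩ := h1 hX' l
    refine ⟨N, k1, fun Y _ _ T a b hab c hc => ?_, k3⟩
    obtain ⟨P, hP, hP'⟩ := hc
    obtain ⟨q1, q2⟩ := k2 Y T a b hab (P.mkContinuous c hP)
      (fun y => hP' _ y fun f => rfl)
    rcases le_or_gt 0 c with hc | hc
    · exact q2.trans (mul_le_mul_of_nonneg_left (LinearMap.mkContinuous_norm_le _ hc _) q1)
    · have hsub : ∀ y : Y, y = 0 := fun y => by
        have e1 := hP (NormedSpace.inclusionInDoubleDual ℝ Y y)
        rw [hP' _ y fun f => rfl] at e1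
        have e2 := norm_nonneg (NormedSpace.inclusionInDoubleDual ℝ Y y)
        have : ‖y‖ ≤ 0 := e1.trans (mul_nonpos_of_nonpos_of_nonneg hc.le e2)
        exact norm_le_zero_iff.1 this
      exfalso
      refine hX 0 ⟨fun i => i.elim0, fun Ψ => ⟨0, fun i => i.elim0, fun f => ?_⟩⟩
      have : f = 0 := by
        ext x
        have : x = 0 := T.injective ((hsub _).trans (hsub _).symm)
        rw [this, map_zero, map_zero]
      rw [this]
      simp
  · intro n hn Y _ _ e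
    obtain ⟨f1, f2⟩ := fd_of_codimLE hn
    obtain ⟨P, hP, hP'⟩ := h2 f1 Y e
    refine ⟨P, fun Φ => (P.le_opNorm Φ).trans (mul_le_mul_of_nonneg_right (hP'.trans
      (pow_le_pow_right₀ (by norm_num) f2)) (norm_nonneg _)), fun Φ x hΦ => ?_⟩
    rw [← hP x]
    exact congrArg P (by ext f; exact hΦ f)

end Pool.Agent.Results.MP_a66ead_an.BidualComplementation
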